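import Pool.Agent.Work.MP_bde882_al_h5.Defs

/-!
Explicit right-normed bases of the homogeneous parts of degree `1, …, 7` of the free Lie algebra on
three letters over `ZMod 7`, and the relations expressing the remaining right-normed brackets.
-/

set_option autoImplicit false

namespace Pool.Agent.Work.MP_bde882_al.H5

def bas1 : List (List (Fin 3)) :=
  [[0], [1], [2]]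

def bas2 : List (List (Fin 3)) :=
  [[0,1], [0,2], [1,2]]

def bas3 : List (List (Fin 3)) :=
  [[0,0,1], [0,0,2], [1,0,1], [0,1,2], [1,0,2], [2,0,2], [1,1,2], [2,1,2]]

def bas4 : List (List (Fin 3)) :=
  [[0,0,0,1], [0,0,0,2], [0,1,0,1], [0,0,1,2], [0,1,0,2], [1,0,0,2], [0,2,0,2], [1,1,0,1],
   [0,1,1,2], [1,0,1,2], [1,1,0,2], [0,2,1,2], [1,2,0,2], [2,0,1,2], [2,2,0,2], [1,1,1,2],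
   [1,2,1,2], [2,2,1,2]]

def bas5 : List (List (Fin 3)) :=
  [[0,0,0,0,1], [0,0,0,0,2], [0,0,1,0,1], [1,0,0,0,1], [0,0,0,1,2], [0,0,1,0,2], [0,1,0,0,2],
   [1,0,0,0,2], [0,0,2,0,2], [2,0,0,0,2], [0,1,1,0,1], [1,0,1,0,1], [0,0,1,1,2], [0,1,0,1,2],
   [0,1,1,0,2], [1,0,0,1,2], [1,0,1,0,2], [1,1,0,0,2], [0,0,2,1,2], [0,1,2,0,2], [0,2,0,1,2],
   [1,0,2,0,2], [2,0,0,1,2], [2,0,1,0,2], [0,2,2,0,2], [2,0,2,0,2], [1,1,1,0,1], [0,1,1,1,2],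
   [1,0,1,1,2], [1,1,0,1,2], [1,1,1,0,2], [0,1,2,1,2], [1,0,2,1,2], [1,1,2,0,2], [1,2,0,1,2],
   [2,0,1,1,2], [2,1,0,1,2], [0,2,2,1,2], [1,2,2,0,2], [2,0,2,1,2], [2,1,2,0,2], [2,2,2,0,2],
   [1,1,1,1,2], [1,1,2,1,2], [2,1,1,1,2], [1,2,2,1,2], [2,1,2,1,2], [2,2,2,1,2]]

def bas6 : List (List (Fin 3)) :=
  [[0,0,0,0,0,1], [0,0,0,0,0,2], [0,0,0,1,0,1], [0,1,0,0,0,1], [0,0,0,0,1,2], [0,0,0,1,0,2],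
   [0,0,1,0,0,2], [0,1,0,0,0,2], [1,0,0,0,0,2], [0,0,0,2,0,2], [0,2,0,0,0,2], [0,0,1,1,0,1],
   [0,1,0,1,0,1], [1,0,0,1,0,1], [0,0,0,1,1,2], [0,0,1,0,1,2], [0,0,1,1,0,2], [0,1,0,0,1,2],
   [0,1,0,1,0,2], [0,1,1,0,0,2], [1,0,0,0,1,2], [1,0,0,1,0,2], [1,0,1,0,0,2], [1,1,0,0,0,2],
   [0,0,0,2,1,2], [0,0,1,2,0,2], [0,0,2,0,1,2], [0,1,0,2,0,2], [0,2,0,0,1,2], [0,2,0,1,0,2],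
   [1,0,0,2,0,2], [1,2,0,0,0,2], [2,0,0,0,1,2], [2,0,0,1,0,2], [0,0,2,2,0,2], [0,2,0,2,0,2],
   [2,0,0,2,0,2], [0,1,1,1,0,1], [1,0,1,1,0,1], [0,0,1,1,1,2], [0,1,0,1,1,2], [0,1,1,0,1,2],
   [0,1,1,1,0,2], [1,0,0,1,1,2], [1,0,1,0,1,2], [1,0,1,1,0,2], [1,1,0,0,1,2], [1,1,0,1,0,2],
   [1,1,1,0,0,2], [0,0,1,2,1,2], [0,1,0,2,1,2], [0,1,1,2,0,2], [0,1,2,0,1,2], [0,2,0,1,1,2],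
   [0,2,1,0,1,2], [1,0,0,2,1,2], [1,0,1,2,0,2], [1,0,2,0,1,2], [1,1,0,2,0,2], [1,2,0,0,1,2],
   [1,2,0,1,0,2], [2,0,0,1,1,2], [2,0,1,0,1,2], [0,0,2,2,1,2], [0,1,2,2,0,2], [0,2,0,2,1,2],
   [0,2,1,2,0,2], [1,0,2,2,0,2], [1,2,0,2,0,2], [2,0,0,2,1,2], [2,0,1,2,0,2], [2,0,2,0,1,2],
   [2,1,0,2,0,2], [0,2,2,2,0,2], [2,0,2,2,0,2], [1,1,1,1,0,1], [0,1,1,1,1,2], [1,0,1,1,1,2],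
   [1,1,0,1,1,2], [1,1,1,0,1,2], [1,1,1,1,0,2], [0,1,1,2,1,2], [0,2,1,1,1,2], [1,0,1,2,1,2],
   [1,1,0,2,1,2], [1,1,1,2,0,2], [1,1,2,0,1,2], [1,2,0,1,1,2], [1,2,1,0,1,2], [2,0,1,1,1,2],
   [2,1,0,1,1,2], [0,1,2,2,1,2], [0,2,1,2,1,2], [1,0,2,2,1,2], [1,1,2,2,0,2], [1,2,0,2,1,2],
   [1,2,1,2,0,2], [2,0,1,2,1,2], [2,1,0,2,1,2], [2,1,1,2,0,2], [2,1,2,0,1,2], [0,2,2,2,1,2],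
   [1,2,2,2,0,2], [2,0,2,2,1,2], [2,1,2,2,0,2], [2,2,0,2,1,2], [2,2,2,2,0,2], [1,1,1,1,1,2],
   [1,1,1,2,1,2], [1,2,1,1,1,2], [1,1,2,2,1,2], [1,2,1,2,1,2], [2,1,1,2,1,2], [1,2,2,2,1,2],
   [2,1,2,2,1,2], [2,2,2,2,1,2]]

def bas7 : List (List (Fin 3)) :=
  [[0,0,0,0,0,0,1], [0,0,0,0,0,0,2], [0,0,0,0,1,0,1], [0,0,1,0,0,0,1], [1,0,0,0,0,0,1],
   [0,0,0,0,0,1,2], [0,0,0,0,1,0,2], [0,0,0,1,0,0,2], [0,0,1,0,0,0,2], [0,1,0,0,0,0,2],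
   [1,0,0,0,0,0,2], [0,0,0,0,2,0,2], [0,0,2,0,0,0,2], [2,0,0,0,0,0,2], [0,0,0,1,1,0,1],
   [0,0,1,0,1,0,1], [0,1,0,0,1,0,1], [1,0,0,0,1,0,1], [1,0,1,0,0,0,1], [0,0,0,0,1,1,2],
   [0,0,0,1,0,1,2], [0,0,0,1,1,0,2], [0,0,1,0,0,1,2], [0,0,1,0,1,0,2], [0,0,1,1,0,0,2],
   [0,1,0,0,0,1,2], [0,1,0,0,1,0,2], [0,1,0,1,0,0,2], [0,1,1,0,0,0,2], [1,0,0,0,0,1,2],
   [1,0,0,0,1,0,2], [1,0,0,1,0,0,2], [1,0,1,0,0,0,2], [1,1,0,0,0,0,2], [0,0,0,0,2,1,2],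
   [0,0,0,1,2,0,2], [0,0,0,2,0,1,2], [0,0,1,0,2,0,2], [0,0,2,0,0,1,2], [0,0,2,0,1,0,2],
   [0,1,0,0,2,0,2], [0,1,2,0,0,0,2], [0,2,0,0,0,1,2], [0,2,0,0,1,0,2], [1,0,0,0,2,0,2],
   [1,0,2,0,0,0,2], [2,0,0,0,0,1,2], [2,0,0,0,1,0,2], [2,0,0,1,0,0,2], [0,0,0,2,2,0,2],
   [0,0,2,0,2,0,2], [0,2,0,0,2,0,2], [2,0,0,0,2,0,2], [2,0,2,0,0,0,2], [0,0,1,1,1,0,1],
   [0,1,0,1,1,0,1], [1,0,0,1,1,0,1], [1,0,1,0,1,0,1], [1,1,0,0,1,0,1], [0,0,0,1,1,1,2],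
   [0,0,1,0,1,1,2], [0,0,1,1,0,1,2], [0,0,1,1,1,0,2], [0,1,0,0,1,1,2], [0,1,0,1,0,1,2],
   [0,1,0,1,1,0,2], [0,1,1,0,0,1,2], [0,1,1,0,1,0,2], [0,1,1,1,0,0,2], [1,0,0,0,1,1,2],
   [1,0,0,1,0,1,2], [1,0,0,1,1,0,2], [1,0,1,0,0,1,2], [1,0,1,0,1,0,2], [1,0,1,1,0,0,2],
   [1,1,0,0,0,1,2], [1,1,0,0,1,0,2], [1,1,0,1,0,0,2], [1,1,1,0,0,0,2], [0,0,0,1,2,1,2],
   [0,0,1,0,2,1,2], [0,0,1,1,2,0,2], [0,0,1,2,0,1,2], [0,0,2,0,1,1,2], [0,0,2,1,0,1,2],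
   [0,1,0,0,2,1,2], [0,1,0,1,2,0,2], [0,1,0,2,0,1,2], [0,1,1,0,2,0,2], [0,1,2,0,0,1,2],
   [0,1,2,0,1,0,2], [0,2,0,0,1,1,2], [0,2,0,1,0,1,2], [1,0,0,0,2,1,2], [1,0,0,1,2,0,2],
   [1,0,0,2,0,1,2], [1,0,1,0,2,0,2], [1,0,2,0,0,1,2], [1,0,2,0,1,0,2], [1,1,0,0,2,0,2],
   [1,1,2,0,0,0,2], [1,2,0,0,0,1,2], [1,2,0,0,1,0,2], [2,0,0,0,1,1,2], [2,0,0,1,0,1,2],
   [2,0,0,1,1,0,2], [2,0,1,0,0,1,2], [2,0,1,0,1,0,2], [2,1,0,0,0,1,2], [0,0,0,2,2,1,2],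
   [0,0,1,2,2,0,2], [0,0,2,0,2,1,2], [0,0,2,1,2,0,2], [0,1,0,2,2,0,2], [0,1,2,0,2,0,2],
   [0,2,0,0,2,1,2], [0,2,0,1,2,0,2], [0,2,0,2,0,1,2], [0,2,1,0,2,0,2], [1,0,0,2,2,0,2],
   [1,0,2,0,2,0,2], [1,2,0,0,2,0,2], [2,0,0,0,2,1,2], [2,0,0,1,2,0,2], [2,0,0,2,0,1,2],
   [2,0,1,0,2,0,2], [2,0,2,0,0,1,2], [2,0,2,0,1,0,2], [2,1,0,0,2,0,2], [0,0,2,2,2,0,2],
   [0,2,0,2,2,0,2], [2,0,0,2,2,0,2], [2,0,2,0,2,0,2], [2,2,0,0,2,0,2], [0,1,1,1,1,0,1],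
   [1,0,1,1,1,0,1], [1,1,0,1,1,0,1], [0,0,1,1,1,1,2], [0,1,0,1,1,1,2], [0,1,1,0,1,1,2],
   [0,1,1,1,0,1,2], [0,1,1,1,1,0,2], [1,0,0,1,1,1,2], [1,0,1,0,1,1,2], [1,0,1,1,0,1,2],
   [1,0,1,1,1,0,2], [1,1,0,0,1,1,2], [1,1,0,1,0,1,2], [1,1,0,1,1,0,2], [1,1,1,0,0,1,2],
   [1,1,1,0,1,0,2], [1,1,1,1,0,0,2], [0,0,1,1,2,1,2], [0,0,2,1,1,1,2], [0,1,0,1,2,1,2],
   [0,1,1,0,2,1,2], [0,1,1,1,2,0,2], [0,1,1,2,0,1,2], [0,1,2,0,1,1,2], [0,1,2,1,0,1,2],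
   [0,2,0,1,1,1,2], [0,2,1,0,1,1,2], [1,0,0,1,2,1,2], [1,0,1,0,2,1,2], [1,0,1,1,2,0,2],
   [1,0,1,2,0,1,2], [1,0,2,0,1,1,2], [1,0,2,1,0,1,2], [1,1,0,0,2,1,2], [1,1,0,1,2,0,2],
   [1,1,0,2,0,1,2], [1,1,1,0,2,0,2], [1,1,2,0,0,1,2], [1,1,2,0,1,0,2], [1,2,0,0,1,1,2],
   [1,2,0,1,0,1,2], [2,0,0,1,1,1,2], [2,0,1,0,1,1,2], [2,0,1,1,0,1,2], [2,0,1,1,1,0,2],
   [2,1,0,0,1,1,2], [2,1,0,1,0,1,2], [0,0,1,2,2,1,2], [0,0,2,1,2,1,2], [0,1,0,2,2,1,2],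
   [0,1,1,2,2,0,2], [0,1,2,0,2,1,2], [0,1,2,1,2,0,2], [0,2,0,1,2,1,2], [0,2,1,0,2,1,2],
   [0,2,1,1,2,0,2], [0,2,1,2,0,1,2], [1,0,0,2,2,1,2], [1,0,1,2,2,0,2], [1,0,2,0,2,1,2],
   [1,0,2,1,2,0,2], [1,1,0,2,2,0,2], [1,1,2,0,2,0,2], [1,2,0,0,2,1,2], [1,2,0,1,2,0,2],
   [1,2,0,2,0,1,2], [1,2,1,0,2,0,2], [2,0,0,1,2,1,2], [2,0,1,0,2,1,2], [2,0,1,1,2,0,2],
   [2,0,1,2,0,1,2], [2,0,2,0,1,1,2], [2,0,2,1,0,1,2], [2,1,0,0,2,1,2], [2,1,0,1,2,0,2],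
   [2,1,0,2,0,1,2], [2,1,1,0,2,0,2], [0,0,2,2,2,1,2], [0,1,2,2,2,0,2], [0,2,0,2,2,1,2],
   [0,2,1,2,2,0,2], [0,2,2,0,2,1,2], [1,0,2,2,2,0,2], [1,2,0,2,2,0,2], [2,0,0,2,2,1,2],
   [2,0,1,2,2,0,2], [2,0,2,0,2,1,2], [2,0,2,1,2,0,2], [2,1,0,2,2,0,2], [2,1,2,0,2,0,2],
   [2,2,0,0,2,1,2], [2,2,0,1,2,0,2], [0,2,2,2,2,0,2], [2,0,2,2,2,0,2], [2,2,0,2,2,0,2],
   [1,1,1,1,1,0,1], [0,1,1,1,1,1,2], [1,0,1,1,1,1,2], [1,1,0,1,1,1,2], [1,1,1,0,1,1,2],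
   [1,1,1,1,0,1,2], [1,1,1,1,1,0,2], [0,1,1,1,2,1,2], [0,1,2,1,1,1,2], [1,0,1,1,2,1,2],
   [1,0,2,1,1,1,2], [1,1,0,1,2,1,2], [1,1,1,0,2,1,2], [1,1,1,1,2,0,2], [1,1,1,2,0,1,2],
   [1,1,2,0,1,1,2], [1,1,2,1,0,1,2], [1,2,0,1,1,1,2], [1,2,1,0,1,1,2], [2,0,1,1,1,1,2],
   [2,1,0,1,1,1,2], [2,1,1,0,1,1,2], [0,1,1,2,2,1,2], [0,1,2,1,2,1,2], [0,2,1,1,2,1,2],
   [1,0,1,2,2,1,2], [1,0,2,1,2,1,2], [1,1,0,2,2,1,2], [1,1,1,2,2,0,2], [1,1,2,0,2,1,2],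
   [1,1,2,1,2,0,2], [1,2,0,1,2,1,2], [1,2,1,0,2,1,2], [1,2,1,1,2,0,2], [1,2,1,2,0,1,2],
   [2,0,1,1,2,1,2], [2,0,2,1,1,1,2], [2,1,0,1,2,1,2], [2,1,1,0,2,1,2], [2,1,1,1,2,0,2],
   [2,1,1,2,0,1,2], [2,1,2,1,0,1,2], [0,1,2,2,2,1,2], [0,2,1,2,2,1,2], [1,0,2,2,2,1,2],
   [1,1,2,2,2,0,2], [1,2,0,2,2,1,2], [1,2,1,2,2,0,2], [1,2,2,0,2,1,2], [2,0,1,2,2,1,2],
   [2,0,2,1,2,1,2], [2,1,0,2,2,1,2], [2,1,1,2,2,0,2], [2,1,2,0,2,1,2], [2,1,2,1,2,0,2],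
   [2,2,0,1,2,1,2], [2,2,1,0,2,1,2], [0,2,2,2,2,1,2], [1,2,2,2,2,0,2], [2,0,2,2,2,1,2],
   [2,1,2,2,2,0,2], [2,2,0,2,2,1,2], [2,2,1,2,2,0,2], [2,2,2,2,2,0,2], [1,1,1,1,1,1,2],
   [1,1,1,1,2,1,2], [1,1,2,1,1,1,2], [2,1,1,1,1,1,2], [1,1,1,2,2,1,2], [1,1,2,1,2,1,2],
   [1,2,1,1,2,1,2], [2,1,1,1,2,1,2], [2,1,2,1,1,1,2], [1,1,2,2,2,1,2], [1,2,1,2,2,1,2],
   [2,1,1,2,2,1,2], [2,1,2,1,2,1,2], [2,2,1,1,2,1,2], [1,2,2,2,2,1,2], [2,1,2,2,2,1,2],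
   [2,2,1,2,2,1,2], [2,2,2,2,2,1,2]]

/-- basis words of degree `d ≤ 7` -/
def bas : ℕ → List (List (Fin 3))
  | 1 => bas1 | 2 => bas2 | 3 => bas3 | 4 => bas4 | 5 => bas5 | 6 => bas6 | 7 => bas7
  | _ => []

/-- all basis words of degrees `2, …, 7`, in increasing order of degree -/
def elts : List (List (Fin 3)) := bas2 ++ bas3 ++ bas4 ++ bas5 ++ bas6 ++ bas7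

/-- the `k`-th basis word (`k < 505`); `elt 0, elt 1, elt 2` have degree two, `elt 3` is the first
of degree three -/
def elt (k : ℕ) : List (Fin 3) := elts.getD k []

/-- relations: each remaining bracket `i :: w`, `w` a basis word, as a combination of basis words
(coefficient, word) -/
def rels : List (List (Fin 3) × List (ℕ × List (Fin 3))) :=
  [([0,0], []),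
   ([1,0], [(6, [0,1])]),
   ([2,0], [(6, [0,2])]),
   ([1,1], []),
   ([2,1], [(6, [1,2])]),
   ([2,2], []),
   ([2,0,1], [(6, [0,1,2]), (1, [1,0,2])]),
   ([1,0,0,1], [(1, [0,1,0,1])]),
   ([2,0,0,1], [(6, [0,0,1,2]), (2, [0,1,0,2]), (6, [1,0,0,2])]),
   ([2,0,0,2], [(1, [0,2,0,2])]),
   ([2,1,0,1], [(1, [0,1,1,2]), (5, [1,0,1,2]), (1, [1,1,0,2])]),
   ([2,1,0,2], [(1, [0,2,1,2]), (1, [1,2,0,2]), (6, [2,0,1,2])]),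
   ([2,1,1,2], [(1, [1,2,1,2])]),
   ([2,0,0,0,1], [(6, [0,0,0,1,2]), (3, [0,0,1,0,2]), (4, [0,1,0,0,2]), (1, [1,0,0,0,2])]),
   ([2,0,1,0,1], [(1, [0,0,1,1,2]), (5, [0,1,0,1,2]), (2, [1,0,1,0,2]), (6, [1,1,0,0,2])]),
   ([2,1,0,0,2], [(1, [0,0,2,1,2]), (5, [0,2,0,1,2]), (1, [1,0,2,0,2]), (1, [2,0,0,1,2])]),
   ([2,1,1,0,1], [(6, [0,1,1,1,2]), (3, [1,0,1,1,2]), (4, [1,1,0,1,2]), (1, [1,1,1,0,2])]),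
   ([2,1,1,0,2], [(6, [0,1,2,1,2]), (2, [1,0,2,1,2]), (1, [1,1,2,0,2]), (5, [1,2,0,1,2]), (1, [2,0,1,1,2])]),
   ([2,2,0,1,2], [(6, [0,2,2,1,2]), (1, [1,2,2,0,2]), (2, [2,0,2,1,2]), (6, [2,1,2,0,2])]),
   ([1,0,0,0,0,1], [(6, [0,0,0,1,0,1]), (2, [0,1,0,0,0,1])]),
   ([2,0,0,0,0,1], [(6, [0,0,0,0,1,2]), (4, [0,0,0,1,0,2]), (1, [0,0,1,0,0,2]), (4, [0,1,0,0,0,2]), (6, [1,0,0,0,0,2])]),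
   ([2,0,0,0,0,2], [(6, [0,0,0,2,0,2]), (2, [0,2,0,0,0,2])]),
   ([1,1,0,0,0,1], [(1, [0,0,1,1,0,1]), (4, [0,1,0,1,0,1]), (3, [1,0,0,1,0,1])]),
   ([2,0,0,1,0,1], [(1, [0,0,0,1,1,2]), (5, [0,0,1,0,1,2]), (6, [0,0,1,1,0,2]), (4, [0,1,0,1,0,2]), (6, [0,1,1,0,0,2]), (5, [1,0,1,0,0,2]), (1, [1,1,0,0,0,2])]),
   ([2,1,0,0,0,1], [(1, [0,0,0,1,1,2]), (4, [0,0,1,0,1,2]), (3, [0,1,0,0,1,2]), (5, [1,0,0,0,1,2]), (3, [1,0,0,1,0,2]), (4, [1,0,1,0,0,2]), (1, [1,1,0,0,0,2])]),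
   ([2,0,1,0,0,2], [(6, [0,0,1,2,0,2]), (6, [0,0,2,0,1,2]), (1, [0,1,0,2,0,2]), (1, [0,2,0,0,1,2]), (2, [0,2,0,1,0,2]), (6, [1,0,0,2,0,2]), (1, [1,2,0,0,0,2]), (6, [2,0,0,1,0,2])]),
   ([2,1,0,0,0,2], [(1, [0,0,0,2,1,2]), (4, [0,0,2,0,1,2]), (3, [0,2,0,0,1,2]), (1, [1,2,0,0,0,2]), (6, [2,0,0,0,1,2])]),
   ([2,2,0,0,0,2], [(1, [0,0,2,2,0,2]), (4, [0,2,0,2,0,2]), (3, [2,0,0,2,0,2])]),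
   ([1,1,0,1,0,1], [(6, [0,1,1,1,0,1]), (2, [1,0,1,1,0,1])]),
   ([2,0,1,1,0,1], [(6, [0,0,1,1,1,2]), (3, [0,1,0,1,1,2]), (4, [0,1,1,0,1,2]), (2, [0,1,1,1,0,2]), (4, [1,0,1,1,0,2]), (3, [1,1,0,1,0,2]), (6, [1,1,1,0,0,2])]),
   ([2,1,0,1,0,1], [(6, [0,0,1,1,1,2]), (2, [0,1,0,1,1,2]), (1, [1,0,0,1,1,2]), (3, [1,0,1,0,1,2]), (1, [1,1,0,0,1,2]), (2, [1,1,0,1,0,2]), (6, [1,1,1,0,0,2])]),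
   ([2,0,1,1,0,2], [(6, [0,0,1,2,1,2]), (2, [0,1,0,2,1,2]), (1, [0,1,1,2,0,2]), (5, [0,1,2,0,1,2]), (1, [0,2,0,1,1,2]), (6, [1,0,0,2,1,2]), (6, [1,0,1,2,0,2]), (1, [1,0,2,0,1,2]), (1, [1,2,0,1,0,2])]),
   ([2,1,0,0,1,2], [(6, [0,1,2,0,1,2]), (1, [0,2,1,0,1,2]), (1, [1,2,0,0,1,2])]),
   ([2,1,0,1,0,2], [(6, [0,0,1,2,1,2]), (1, [0,1,0,2,1,2]), (6, [0,1,2,0,1,2]), (1, [0,2,0,1,1,2]), (1, [0,2,1,0,1,2]), (6, [1,0,2,0,1,2]), (1, [1,2,0,0,1,2]), (1, [1,2,0,1,0,2]), (6, [2,0,1,0,1,2])]),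
   ([2,1,1,0,0,2], [(6, [0,0,1,2,1,2]), (2, [0,2,0,1,1,2]), (2, [1,0,0,2,1,2]), (3, [1,0,2,0,1,2]), (1, [1,1,0,2,0,2]), (2, [1,2,0,0,1,2]), (6, [2,0,0,1,1,2])]),
   ([2,2,0,0,1,2], [(1, [0,0,2,2,1,2]), (5, [0,2,0,2,1,2]), (6, [1,2,0,2,0,2]), (2, [2,0,2,0,1,2]), (1, [2,1,0,2,0,2])]),
   ([2,2,0,1,0,2], [(6, [0,0,2,2,1,2]), (1, [0,1,2,2,0,2]), (1, [0,2,0,2,1,2]), (4, [0,2,1,2,0,2]), (1, [1,0,2,2,0,2]), (6, [1,2,0,2,0,2]), (2, [2,0,0,2,1,2]), (3, [2,0,1,2,0,2]), (5, [2,0,2,0,1,2])]),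
   ([2,2,0,2,0,2], [(6, [0,2,2,2,0,2]), (2, [2,0,2,2,0,2])]),
   ([2,1,1,1,0,1], [(1, [0,1,1,1,1,2]), (3, [1,0,1,1,1,2]), (6, [1,1,0,1,1,2]), (3, [1,1,1,0,1,2]), (1, [1,1,1,1,0,2])]),
   ([2,1,1,0,1,2], [(6, [0,1,1,2,1,2]), (1, [0,2,1,1,1,2]), (6, [1,1,2,0,1,2]), (1, [1,2,0,1,1,2]), (2, [1,2,1,0,1,2]), (6, [2,1,0,1,1,2])]),
   ([2,1,1,1,0,2], [(1, [0,2,1,1,1,2]), (4, [1,0,1,2,1,2]), (3, [1,1,0,2,1,2]), (1, [1,1,1,2,0,2]), (4, [1,1,2,0,1,2]), (3, [1,2,0,1,1,2]), (6, [2,0,1,1,1,2])]),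
   ([2,2,0,1,1,2], [(6, [0,2,1,2,1,2]), (1, [1,1,2,2,0,2]), (5, [1,2,1,2,0,2]), (2, [2,0,1,2,1,2]), (1, [2,1,1,2,0,2])]),
   ([2,2,1,0,1,2], [(1, [0,1,2,2,1,2]), (6, [0,2,1,2,1,2]), (1, [1,0,2,2,1,2]), (6, [1,1,2,2,0,2]), (4, [1,2,0,2,1,2]), (1, [1,2,1,2,0,2]), (1, [2,1,0,2,1,2]), (2, [2,1,2,0,1,2])]),
   ([2,2,1,2,0,2], [(6, [0,2,2,2,1,2]), (6, [1,2,2,2,0,2]), (2, [2,0,2,2,1,2]), (2, [2,1,2,2,0,2]), (6, [2,2,0,2,1,2])]),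
   ([2,1,1,1,1,2], [(6, [1,1,1,2,1,2]), (2, [1,2,1,1,1,2])]),
   ([2,2,1,1,1,2], [(1, [1,1,2,2,1,2]), (4, [1,2,1,2,1,2]), (3, [2,1,1,2,1,2])]),
   ([2,2,1,2,1,2], [(6, [1,2,2,2,1,2]), (2, [2,1,2,2,1,2])]),
   ([2,0,0,0,0,0,1], [(6, [0,0,0,0,0,1,2]), (5, [0,0,0,0,1,0,2]), (4, [0,0,0,1,0,0,2]), (3, [0,0,1,0,0,0,2]), (2, [0,1,0,0,0,0,2]), (1, [1,0,0,0,0,0,2])]),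
   ([2,0,0,0,1,0,1], [(1, [0,0,0,0,1,1,2]), (5, [0,0,0,1,0,1,2]), (5, [0,0,0,1,1,0,2]), (6, [0,0,1,0,1,0,2]), (1, [0,1,0,1,0,0,2]), (2, [0,1,1,0,0,0,2]), (2, [1,0,1,0,0,0,2]), (6, [1,1,0,0,0,0,2])]),
   ([2,0,1,0,0,0,1], [(1, [0,0,0,0,1,1,2]), (4, [0,0,0,1,0,1,2]), (6, [0,0,0,1,1,0,2]), (3, [0,0,1,0,0,1,2]), (3, [0,0,1,0,1,0,2]), (5, [0,1,0,0,0,1,2]), (4, [0,1,0,1,0,0,2]), (1, [0,1,1,0,0,0,2]), (2, [1,0,0,0,1,0,2]), (4, [1,0,0,1,0,0,2]), (3, [1,0,1,0,0,0,2]), (6, [1,1,0,0,0,0,2])]),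
   ([2,0,1,0,0,0,2], [(6, [0,0,0,1,2,0,2]), (5, [0,0,0,2,0,1,2]), (3, [0,0,2,0,0,1,2]), (3, [0,0,2,0,1,0,2]), (1, [0,1,2,0,0,0,2]), (6, [0,2,0,0,0,1,2]), (4, [0,2,0,0,1,0,2]), (6, [1,0,0,0,2,0,2]), (1, [1,0,2,0,0,0,2]), (1, [2,0,0,0,1,0,2])]),
   ([2,1,0,0,0,0,2], [(1, [0,0,0,0,2,1,2]), (3, [0,0,0,2,0,1,2]), (6, [0,0,2,0,0,1,2]), (3, [0,2,0,0,0,1,2]), (6, [1,0,0,0,2,0,2]), (2, [1,0,2,0,0,0,2]), (1, [2,0,0,0,0,1,2])]),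
   ([2,0,0,1,1,0,1], [(6, [0,0,0,1,1,1,2]), (3, [0,0,1,0,1,1,2]), (4, [0,0,1,1,0,1,2]), (3, [0,0,1,1,1,0,2]), (1, [0,1,0,1,1,0,2]), (6, [0,1,1,0,1,0,2]), (4, [0,1,1,1,0,0,2]), (3, [1,0,1,1,0,0,2]), (4, [1,1,0,1,0,0,2]), (1, [1,1,1,0,0,0,2])]),
   ([2,0,1,0,1,0,1], [(6, [0,0,0,1,1,1,2]), (2, [0,0,1,0,1,1,2]), (1, [0,0,1,1,1,0,2]), (1, [0,1,0,0,1,1,2]), (3, [0,1,0,1,0,1,2]), (5, [0,1,0,1,1,0,2]), (1, [0,1,1,0,0,1,2]), (2, [0,1,1,0,1,0,2]), (6, [0,1,1,1,0,0,2]), (6, [1,0,0,1,1,0,2]), (4, [1,0,1,0,1,0,2]), (6, [1,1,0,0,1,0,2]), (5, [1,1,0,1,0,0,2]), (1, [1,1,1,0,0,0,2])]),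
   ([2,1,0,0,1,0,1], [(6, [0,0,0,1,1,1,2]), (2, [0,0,1,0,1,1,2]), (1, [0,0,1,1,0,1,2]), (3, [0,1,0,1,0,1,2]), (1, [0,1,1,0,0,1,2]), (1, [1,0,0,0,1,1,2]), (5, [1,0,0,1,0,1,2]), (6, [1,0,0,1,1,0,2]), (2, [1,0,1,0,0,1,2]), (4, [1,0,1,0,1,0,2]), (6, [1,0,1,1,0,0,2]), (6, [1,1,0,0,0,1,2]), (5, [1,1,0,1,0,0,2]), (1, [1,1,1,0,0,0,2])]),
   ([2,0,1,1,0,0,2], [(5, [0,0,1,0,2,1,2]), (6, [0,0,1,1,2,0,2]), (2, [0,0,1,2,0,1,2]), (1, [0,0,2,0,1,1,2]), (4, [0,1,0,0,2,1,2]), (2, [0,1,0,1,2,0,2]), (1, [0,1,0,2,0,1,2]), (1, [0,1,1,0,2,0,2]), (2, [0,1,2,0,0,1,2]), (5, [0,1,2,0,1,0,2]), (6, [0,2,0,0,1,1,2]), (5, [1,0,0,0,2,1,2]), (5, [1,0,0,1,2,0,2]), (2, [1,0,0,2,0,1,2]), (4, [1,0,2,0,1,0,2]), (6, [1,1,0,0,2,0,2]), (1, [1,1,2,0,0,0,2]),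 (5, [1,2,0,0,1,0,2]), (1, [2,0,0,1,1,0,2])]),
   ([2,1,0,0,1,0,2], [(6, [0,0,0,1,2,1,2]), (1, [0,0,1,0,2,1,2]), (1, [0,0,2,0,1,1,2]), (1, [0,0,2,1,0,1,2]), (5, [0,1,0,2,0,1,2]), (1, [0,1,2,0,0,1,2]), (5, [0,2,0,1,0,1,2]), (1, [1,0,2,0,0,1,2]), (6, [1,2,0,0,0,1,2]), (1, [1,2,0,0,1,0,2]), (1, [2,0,1,0,0,1,2])]),
   ([2,1,0,1,0,0,2], [(6, [0,0,0,1,2,1,2]), (2, [0,0,2,0,1,1,2]), (1, [0,0,2,1,0,1,2]), (1, [0,1,0,0,2,1,2]), (5, [0,1,0,2,0,1,2]), (1, [0,1,2,0,0,1,2]), (6, [0,2,0,0,1,1,2]), (5, [0,2,0,1,0,1,2]), (6, [1,0,0,1,2,0,2]), (5, [1,0,0,2,0,1,2]), (1, [1,0,1,0,2,0,2]), (3, [1,0,2,0,0,1,2]), (2, [1,0,2,0,1,0,2]), (6, [1,1,0,0,2,0,2]), (1, [1,1,2,0,0,0,2]), (6, [1,2,0,0,0,1,2]), (6, [1,2,0,0,1,0,2]), (1, [2,0,0,1,0,1,2])]),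
   ([2,1,1,0,0,0,2], [(6, [0,0,0,1,2,1,2]), (3, [0,0,2,0,1,1,2]), (4, [0,2,0,0,1,1,2]), (2, [1,0,0,0,2,1,2]), (1, [1,0,0,2,0,1,2]), (6, [1,0,2,0,0,1,2]), (1, [1,1,2,0,0,0,2]), (5, [1,2,0,0,0,1,2]), (1, [2,0,0,0,1,1,2])]),
   ([2,1,2,0,0,0,2], [(6, [0,0,1,2,2,0,2]), (1, [0,0,2,0,2,1,2]), (1, [0,0,2,1,2,0,2]), (1, [0,1,2,0,2,0,2]), (4, [0,2,0,0,2,1,2]), (2, [0,2,0,2,0,1,2]), (6, [0,2,1,0,2,0,2]), (1, [1,0,0,2,2,0,2]), (4, [1,0,2,0,2,0,2]), (2, [1,2,0,0,2,0,2]), (2, [2,0,0,0,2,1,2]), (4, [2,0,0,2,0,1,2]), (1, [2,0,2,0,0,1,2]), (1, [2,1,0,0,2,0,2])]),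
   ([2,2,0,0,0,1,2], [(6, [0,0,0,2,2,1,2]), (1, [0,0,1,2,2,0,2]), (2, [0,0,2,0,2,1,2]), (6, [0,0,2,1,2,0,2]), (6, [0,1,2,0,2,0,2]), (5, [0,2,0,2,0,1,2]), (1, [0,2,1,0,2,0,2]), (1, [1,2,0,0,2,0,2]), (2, [2,0,2,0,0,1,2]), (6, [2,1,0,0,2,0,2])]),
   ([2,2,0,0,1,0,2], [(1, [0,0,0,2,2,1,2]), (6, [0,0,1,2,2,0,2]), (6, [0,0,2,0,2,1,2]), (2, [0,0,2,1,2,0,2]), (5, [0,2,0,0,2,1,2]), (5, [0,2,0,1,2,0,2]), (2, [0,2,0,2,0,1,2]), (1, [0,2,1,0,2,0,2]), (6, [1,0,2,0,2,0,2]), (1, [1,2,0,0,2,0,2]), (6, [2,0,1,0,2,0,2]), (2, [2,0,2,0,1,0,2])]),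
   ([2,0,1,1,1,0,1], [(1, [0,0,1,1,1,1,2]), (3, [0,1,0,1,1,1,2]), (6, [0,1,1,0,1,1,2]), (3, [0,1,1,1,0,1,2]), (4, [1,0,1,1,1,0,2]), (1, [1,1,0,1,1,0,2]), (4, [1,1,1,0,1,0,2]), (6, [1,1,1,1,0,0,2])]),
   ([2,1,0,1,1,0,1], [(1, [0,0,1,1,1,1,2]), (4, [0,1,0,1,1,1,2]), (3, [0,1,1,0,1,1,2]), (5, [0,1,1,1,0,1,2]), (6, [1,0,0,1,1,1,2]), (3, [1,0,1,0,1,1,2]), (2, [1,0,1,1,1,0,2]), (4, [1,1,0,1,0,1,2]), (4, [1,1,0,1,1,0,2]), (1, [1,1,1,0,0,1,2]), (3, [1,1,1,0,1,0,2]), (6, [1,1,1,1,0,0,2])]),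
   ([2,1,0,1,1,0,2], [(1, [0,0,1,1,2,1,2]), (5, [0,1,0,1,2,1,2]), (1, [0,1,1,0,2,1,2]), (1, [0,1,2,0,1,1,2]), (5, [0,1,2,1,0,1,2]), (6, [0,2,0,1,1,1,2]), (1, [0,2,1,0,1,1,2]), (6, [1,0,0,1,2,1,2]), (2, [1,0,1,0,2,1,2]), (1, [1,0,1,1,2,0,2]), (5, [1,0,1,2,0,1,2]), (1, [1,0,2,0,1,1,2]), (2, [1,0,2,1,0,1,2]), (6, [1,1,0,0,2,1,2]), (6, [1,1,0,1,2,0,2]), (1, [1,1,2,0,0,1,2]), (1, [1,1,2,0,1,0,2]), (5, [1,2,0,1,0,1,2]), (1, [2,0,1,1,0,1,2])]),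
   ([2,1,1,0,0,1,2], [(6, [0,0,1,1,2,1,2]), (1, [0,0,2,1,1,1,2]), (2, [0,1,2,0,1,1,2]), (5, [0,2,1,0,1,1,2]), (5, [1,0,1,2,0,1,2]), (2, [1,0,2,1,0,1,2]), (1, [1,1,2,0,0,1,2]), (6, [1,2,0,0,1,1,2]), (1, [2,1,0,0,1,1,2])]),
   ([2,1,1,0,1,0,2], [(1, [0,0,2,1,1,1,2]), (6, [0,1,0,1,2,1,2]), (1, [0,1,2,0,1,1,2]), (6, [0,2,0,1,1,1,2]), (6, [0,2,1,0,1,1,2]), (5, [1,0,0,1,2,1,2]), (2, [1,0,1,0,2,1,2]), (5, [1,0,1,2,0,1,2]), (3, [1,0,2,0,1,1,2]), (2, [1,0,2,1,0,1,2]), (5, [1,1,0,2,0,1,2]), (2, [1,1,2,0,0,1,2]), (1, [1,1,2,0,1,0,2]), (6, [1,2,0,0,1,1,2]), (5, [1,2,0,1,0,1,2]), (1, [2,0,1,0,1,1,2])]),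
   ([2,1,1,1,0,0,2], [(1, [0,0,2,1,1,1,2]), (5, [0,2,0,1,1,1,2]), (4, [1,0,0,1,2,1,2]), (6, [1,0,2,0,1,1,2]), (3, [1,1,0,0,2,1,2]), (1, [1,1,0,2,0,1,2]), (1, [1,1,1,0,2,0,2]), (3, [1,1,2,0,0,1,2]), (4, [1,2,0,0,1,1,2]), (1, [2,0,0,1,1,1,2])]),
   ([2,1,2,0,0,1,2], [(6, [0,0,1,2,2,1,2]), (1, [0,0,2,1,2,1,2]), (2, [0,1,2,0,2,1,2]), (5, [0,2,1,0,2,1,2]), (1, [1,0,0,2,2,1,2]), (5, [1,0,2,0,2,1,2]), (6, [1,1,2,0,2,0,2]), (6, [1,2,0,0,2,1,2]), (2, [1,2,0,2,0,1,2]), (1, [1,2,1,0,2,0,2]), (6, [2,0,1,2,0,1,2]), (1, [2,0,2,1,0,1,2]), (1, [2,1,0,0,2,1,2])]),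
   ([2,1,2,0,1,0,2], [(1, [0,0,2,1,2,1,2]), (6, [0,1,1,2,2,0,2]), (2, [0,1,2,1,2,0,2]), (6, [0,2,0,1,2,1,2]), (5, [0,2,1,0,2,1,2]), (6, [0,2,1,1,2,0,2]), (2, [0,2,1,2,0,1,2]), (5, [1,0,2,1,2,0,2]), (1, [1,1,0,2,2,0,2]), (6, [1,1,2,0,2,0,2]), (2, [1,2,0,1,2,0,2]), (6, [2,0,0,1,2,1,2]), (2, [2,0,1,0,2,1,2]), (5, [2,0,1,2,0,1,2]), (1, [2,0,2,0,1,1,2]), (1, [2,1,0,0,2,1,2]), (1, [2,1,0,1,2,0,2]), (6, [2,1,0,2,0,1,2])]),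
   ([2,2,0,0,1,1,2], [(1, [0,0,2,1,2,1,2]), (5, [0,2,0,1,2,1,2]), (6, [1,1,2,0,2,0,2]), (2, [1,2,1,0,2,0,2]), (2, [2,0,2,0,1,1,2]), (6, [2,1,1,0,2,0,2])]),
   ([2,2,0,1,0,1,2], [(6, [0,0,1,2,2,1,2]), (1, [0,0,2,1,2,1,2]), (6, [0,1,0,2,2,1,2]), (1, [0,1,1,2,2,0,2]), (3, [0,1,2,0,2,1,2]), (5, [0,1,2,1,2,0,2]), (6, [0,2,1,0,2,1,2]), (1, [0,2,1,1,2,0,2]), (5, [0,2,1,2,0,1,2]), (1, [1,0,1,2,2,0,2]), (6, [1,0,2,1,2,0,2]), (6, [1,1,2,0,2,0,2]), (1, [1,2,0,1,2,0,2]), (1, [1,2,1,0,2,0,2]), (2, [2,0,2,1,0,1,2]), (6, [2,1,0,1,2,0,2])]),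
   ([2,2,0,2,0,1,2], [(5, [0,0,2,2,2,1,2]), (5, [0,1,2,2,2,0,2]), (5, [0,2,0,2,2,1,2]), (2, [0,2,1,2,2,0,2]), (4, [0,2,2,0,2,1,2]), (1, [1,0,2,2,2,0,2]), (6, [1,2,0,2,2,0,2]), (5, [2,0,0,2,2,1,2]), (3, [2,0,1,2,2,0,2]), (2, [2,0,2,0,2,1,2]), (4, [2,0,2,1,2,0,2]), (6, [2,1,0,2,2,0,2]), (1, [2,1,2,0,2,0,2]), (1, [2,2,0,0,2,1,2])]),
   ([2,2,1,0,2,0,2], [(6, [0,0,2,2,2,1,2]), (2, [0,2,0,2,2,1,2]), (1, [1,0,2,2,2,0,2]), (5, [1,2,0,2,2,0,2]), (5, [2,0,2,0,2,1,2]), (2, [2,1,2,0,2,0,2]), (1, [2,2,0,0,2,1,2])]),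
   ([2,1,1,1,1,0,1], [(6, [0,1,1,1,1,1,2]), (5, [1,0,1,1,1,1,2]), (4, [1,1,0,1,1,1,2]), (3, [1,1,1,0,1,1,2]), (2, [1,1,1,1,0,1,2]), (1, [1,1,1,1,1,0,2])]),
   ([2,1,1,1,0,1,2], [(1, [0,1,1,1,2,1,2]), (6, [0,1,2,1,1,1,2]), (4, [1,0,1,1,2,1,2]), (3, [1,0,2,1,1,1,2]), (5, [1,1,1,2,0,1,2]), (3, [1,1,2,0,1,1,2]), (3, [1,1,2,1,0,1,2]), (6, [1,2,0,1,1,1,2]), (4, [1,2,1,0,1,1,2]), (1, [2,1,0,1,1,1,2])]),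
   ([2,1,1,1,1,0,2], [(1, [0,1,1,1,2,1,2]), (5, [0,1,2,1,1,1,2]), (4, [1,0,2,1,1,1,2]), (1, [1,1,0,1,2,1,2]), (4, [1,1,1,0,2,1,2]), (1, [1,1,1,1,2,0,2]), (3, [1,1,1,2,0,1,2]), (6, [1,1,2,0,1,1,2]), (3, [1,2,0,1,1,1,2]), (1, [2,0,1,1,1,1,2])]),
   ([2,1,2,0,1,1,2], [(6, [0,1,1,2,2,1,2]), (3, [0,1,2,1,2,1,2]), (5, [0,2,1,1,2,1,2]), (6, [1,0,2,1,2,1,2]), (1, [1,1,0,2,2,1,2]), (6, [1,1,2,0,2,1,2]), (6, [1,1,2,1,2,0,2]), (1, [1,2,0,1,2,1,2]), (5, [1,2,1,0,2,1,2]), (1, [1,2,1,1,2,0,2]), (2, [1,2,1,2,0,1,2]), (6, [2,0,1,1,2,1,2]), (1, [2,0,2,1,1,1,2]), (1, [2,1,0,1,2,1,2]), (1, [2,1,1,0,2,1,2]), (6, [2,1,1,2,0,1,2])]),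
   ([2,2,0,1,1,1,2], [(6, [0,1,1,2,2,1,2]), (3, [0,1,2,1,2,1,2]), (4, [0,2,1,1,2,1,2]), (1, [1,1,1,2,2,0,2]), (4, [1,1,2,1,2,0,2]), (3, [1,2,1,1,2,0,2]), (2, [2,0,2,1,1,1,2]), (6, [2,1,1,1,2,0,2])]),
   ([2,2,1,0,1,1,2], [(6, [0,1,1,2,2,1,2]), (4, [0,1,2,1,2,1,2]), (4, [0,2,1,1,2,1,2]), (6, [1,0,2,1,2,1,2]), (2, [1,1,0,2,2,1,2]), (6, [1,1,1,2,2,0,2]), (4, [1,1,2,0,2,1,2]), (5, [1,2,1,0,2,1,2]), (1, [1,2,1,1,2,0,2]), (4, [1,2,1,2,0,1,2]), (5, [2,0,1,1,2,1,2]), (2, [2,0,2,1,1,1,2]), (2, [2,1,0,1,2,1,2]), (1, [2,1,1,0,2,1,2]), (5, [2,1,1,2,0,1,2])]),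
   ([2,2,1,1,2,0,2], [(6, [0,1,2,2,2,1,2]), (2, [0,2,1,2,2,1,2]), (1, [1,1,2,2,2,0,2]), (5, [1,2,1,2,2,0,2]), (5, [2,0,2,1,2,1,2]), (2, [2,1,2,1,2,0,2]), (1, [2,2,0,1,2,1,2])]),
   ([2,2,1,2,0,1,2], [(6, [0,1,2,2,2,1,2]), (1, [0,2,1,2,2,1,2]), (6, [1,0,2,2,2,1,2]), (6, [1,1,2,2,2,0,2]), (4, [1,2,0,2,2,1,2]), (1, [1,2,1,2,2,0,2]), (4, [1,2,2,0,2,1,2]), (1, [2,0,1,2,2,1,2]), (6, [2,0,2,1,2,1,2]), (4, [2,1,0,2,2,1,2]), (2, [2,1,1,2,2,0,2]), (3, [2,1,2,0,2,1,2]), (5, [2,1,2,1,2,0,2]), (1, [2,2,1,0,2,1,2])]),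
   ([2,2,2,0,2,1,2], [(1, [0,2,2,2,2,1,2]), (6, [1,2,2,2,2,0,2]), (4, [2,0,2,2,2,1,2]), (2, [2,1,2,2,2,0,2]), (3, [2,2,0,2,2,1,2]), (6, [2,2,1,2,2,0,2])])]

end Pool.Agent.Work.MP_bde882_al.H5
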