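import Pool.Agent.Work.MP_bde882_al_red.Lie

/-!
Common definitions for the reduction of the three-letter certificate (`p = 7`).

`B` is a ring of operators, `X 0, X 1, X 2` are the three letters.
-/

set_option autoImplicit false

namespace Pool.Agent.Work.MP_bde882_al.H5

open Pool.Agent.Work.MP_bde882_al.Red

section defs

variable {B : Type*} [Ring B]

/-- The symmetrised product of a list: the sum, over all orderings of the list, of the products. -/
def sp (l : List B) : B := syn (fun x : B => x) (1 : B) l.length l

/-- Right-normed brackets of letters. -/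
def lie (X : Fin 3 → B) : List (Fin 3) → B
  | [] => 0
  | [i] => X i
  | i :: j :: w => X i * lie X (j :: w) - lie X (j :: w) * X i

variable [Algebra (ZMod 7) B]

/-- The homogeneous part of degree `d` of the Lie algebra generated by the letters. -/
def LL (X : Fin 3 → B) : ℕ → Submodule (ZMod 7) B
  | 0 => ⊥
  | 1 => Submodule.span (ZMod 7) (Set.range X)
  | d + 2 => Submodule.span (ZMod 7) {z | ∃ i, ∃ a ∈ LL X (d + 1), z = X i * a - a * X i}

/-- The Lie algebra generated by the letters. -/
def LT (X : Fin 3 → B) : Submodule (ZMod 7) B := ⨆ d, LL X d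

end defs

/-- `ds` is balanced: every entry exceeds some other entry by at most one. -/
def Bal (ds : List ℕ) : Prop := ∀ l₁ d l₂, ds = l₁ ++ d :: l₂ → ∃ e ∈ l₁ ++ l₂, d ≤ e + 1

end Pool.Agent.Work.MP_bde882_al.H5
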