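import Pool.Agent.Work.MP_bde882_al_h40.Rep

/-!
Matrix times vector by one multiplication, one mask and one residue, without a condition linking
the stride and the number of rows: the row slots are permuted by multiplication by the stride
modulo a coprime number `N`, and gathered by the residue modulo `2 ^ (W * N) - 1`.
-/

set_option autoImplicit false

namespace Pool.Agent.Work.MP_bde882_al.Pk

open Finset

/-- `A` packs the matrix `M` (`r` rows, `k` columns): slot `i < N` (stride `K`, entries reversed)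
holds the row `(K * i + (K - 1)) % N` if this is `< r`, and is empty otherwise. -/
def MRep2 (W K N r k c A : ℕ) (M : ℕ → ℕ → ZMod 7) : Prop :=
  ∃ a : ℕ → ℕ, A = lanes W a (K * N) ∧ (∀ l < K * N, a l ≤ c) ∧
    ∀ i < N, ∀ t < k, ((a (K * i + (K - 1) - t) : ℕ) : ZMod 7)
        = (if (K * i + (K - 1)) % N < r then M ((K * i + (K - 1)) % N) t else 0) ∧
      (r ≤ (K * i + (K - 1)) % N → a (K * i + (K - 1) - t) = 0)

theorem perm_inj {K N : ℕ} (hc : Nat.Coprime K N) {i j : ℕ} (hi : i < N) (hj : j < N)
    (h : (K * i + (K - 1)) % N = (K * j + (K - 1)) % N) : i = j := by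
  have h1 : K * i ≡ K * j [MOD N] := Nat.ModEq.add_right_cancel' (K - 1) h
  have h2 : i ≡ j [MOD N] := Nat.ModEq.cancel_left_of_coprime (by
    rw [Nat.coprime_comm] at hc
    exact hc) h1
  exact Nat.ModEq.eq_of_lt_of_lt h2 hi hj

theorem pow_modEq (W N m : ℕ) : 2 ^ (W * m) ≡ 2 ^ (W * (m % N)) [MOD (2 ^ (W * N) - 1)] := by
  have h2 : 1 ≤ 2 ^ (W * N) := Nat.one_le_two_pow
  have h1 : 2 ^ (W * N) ≡ 1 [MOD (2 ^ (W * N) - 1)] := ((Nat.modEq_iff_dvd' h2).2 dvd_rfl).symm
  have h3 := (h1.pow (m / N)).mul_right (2 ^ (W * (m % N)))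
  rw [one_pow, one_mul, ← pow_mul, ← pow_add] at h3
  have e : W * N * (m / N) + W * (m % N) = W * m := by
    rw [mul_assoc, ← Nat.mul_add, Nat.div_add_mod]
  rwa [e] at h3

theorem gather2 (W K N : ℕ) (hN : 1 ≤ N) (hc : Nat.Coprime K N)
    (d e : ℕ → ℕ) (hde : ∀ i < N, d i = e ((K * i + (K - 1)) % N)) (he : ∀ t < N, e t + 1 < 2 ^ W) :
    lanes (W * K) (fun i => 2 ^ (W * (K - 1)) * d i) N % (2 ^ (W * N) - 1) = lanes W e N := by
  have hmod : lanes (W * K) (fun i => 2 ^ (W * (K - 1)) * d i) N ≡ lanes W e N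
      [MOD (2 ^ (W * N) - 1)] := by
    have h1 : lanes (W * K) (fun i => 2 ^ (W * (K - 1)) * d i) N
        ≡ ∑ i ∈ range N, e ((K * i + (K - 1)) % N) * 2 ^ (W * ((K * i + (K - 1)) % N))
          [MOD (2 ^ (W * N) - 1)] := by
      unfold lanes
      have h0 : ∀ s ≤ N, (∑ i ∈ range s, 2 ^ (W * (K - 1)) * d i * 2 ^ (W * K * i))
          ≡ ∑ i ∈ range s, e ((K * i + (K - 1)) % N) * 2 ^ (W * ((K * i + (K - 1)) % N))
            [MOD (2 ^ (W * N) - 1)] := by
        intro s
        induction s with
        | zero => intro _; exact Nat.ModEq.refl _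
        | succ s ih =>
          intro hs
          rw [sum_range_succ, sum_range_succ]
          refine Nat.ModEq.add (ih (by omega)) ?_
          rw [hde s (by omega)]
          have e1 : 2 ^ (W * (K - 1)) * e ((K * s + (K - 1)) % N) * 2 ^ (W * K * s)
              = e ((K * s + (K - 1)) % N) * 2 ^ (W * (K * s + (K - 1))) := by
            rw [Nat.mul_add, pow_add, mul_assoc W K s]
            ring
          rw [e1]
          exact (pow_modEq W N _).mul_left _
      exact h0 N le_rfl
    have h2 : ∑ i ∈ range N, e ((K * i + (K - 1)) % N) * 2 ^ (W * ((K * i + (K - 1)) % N))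
        = lanes W e N := by
      have him : (range N).image (fun i => (K * i + (K - 1)) % N) = range N := by
        refine eq_of_subset_of_card_le ?_ ?_
        · intro t ht
          obtain ⟨i, _, rfl⟩ := mem_image.1 ht
          exact mem_range.2 (Nat.mod_lt _ hN)
        · rw [card_image_of_injOn]
          intro i hi j hj h
          exact perm_inj hc (mem_range.1 hi) (mem_range.1 hj) h
      unfold lanes
      conv_rhs => rw [← him]
      rw [sum_image]
      intro i hi j hj h
      exact perm_inj hc (mem_range.1 hi) (mem_range.1 hj) h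
    rw [← h2]
    exact h1
  have hlt : lanes W e N < 2 ^ (W * N) - 1 := by
    have h1 : lanes W (fun i => e i + 1) N < 2 ^ (W * N) := lanes_lt _ _ _ he
    have h2 : lanes W e N + 1 ≤ lanes W (fun i => e i + 1) N := by
      have e' : lanes W (fun i => e i + 1) N = lanes W e N + lanes W (fun _ => 1) N := by
        rw [lanes_add]
      rw [e']
      obtain ⟨q, rfl⟩ : ∃ q, N = q + 1 := ⟨N - 1, by omega⟩
      rw [lanes_succ' W (fun _ => 1)]
      omega
    omega
  rw [hmod, Nat.mod_eq_of_lt hlt]

theorem lanes_ext (W : ℕ) (e : ℕ → ℕ) (r N : ℕ) (hr : r ≤ N) (he : ∀ t, r ≤ t → t < N → e t = 0) :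
    lanes W e N = lanes W e r := by
  unfold lanes
  refine (sum_subset (range_subset_range.2 hr) ?_).symm
  intro t ht ht'
  rw [mem_range] at ht ht'
  rw [he t (by omega) ht, zero_mul]

/-- **Soundness of the packed product**, permuted slots. -/
theorem rep_mv2 {W K N r k c b A y : ℕ} {M : ℕ → ℕ → ZMod 7} {v : ℕ → ZMod 7}
    (hM : MRep2 W K N r k c A M) (hy : Rep W k b y v) (hK : 1 ≤ K) (hk : k ≤ K)
    (hN : 1 ≤ N) (hr : r ≤ N) (hc : Nat.Coprime K N) (hb : k * (c * b) + 1 < 2 ^ W) :
    Rep W r (k * (c * b)) (mv (topMask W K N) (2 ^ (W * N) - 1) A y)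
      (fun i => ∑ t ∈ range k, M i t * v t) := by
  have hW : 1 ≤ W := by
    rcases Nat.eq_zero_or_pos W with rfl | h
    · simp at hb
    · exact h
  obtain ⟨a, eA, ha, haM⟩ := hM
  obtain ⟨u, eu, hu⟩ := hy
  -- dot products of the slots
  set d : ℕ → ℕ := fun i => ∑ t ∈ range k, a (K * i + (K - 1) - t) * u t with hd
  have hlt : ∀ i < N, ∀ t < k, K * i + (K - 1) - t < K * N := by
    intro i hi t ht
    have h1 : K * (i + 1) ≤ K * N := Nat.mul_le_mul_left _ hi
    rw [Nat.mul_succ] at h1
    omega
  have hdb : ∀ i < N, d i ≤ k * (c * b) := by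
    intro i hi
    calc d i ≤ ∑ _t ∈ range k, c * b := by
          refine sum_le_sum ?_
          intro t ht
          have ht := mem_range.1 ht
          exact Nat.mul_le_mul (ha _ (hlt i hi t ht)) (hu t ht).1
      _ = k * (c * b) := by simp
  -- the inverse permutation
  have hex : ∀ t < N, ∃ i < N, (K * i + (K - 1)) % N = t := by
    have him : (range N).image (fun i => (K * i + (K - 1)) % N) = range N := by
      refine eq_of_subset_of_card_le ?_ ?_
      · intro t ht
        obtain ⟨i, _, rfl⟩ := mem_image.1 ht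
        exact mem_range.2 (Nat.mod_lt _ hN)
      · rw [card_image_of_injOn]
        intro i hi j hj h
        exact perm_inj hc (mem_range.1 hi) (mem_range.1 hj) h
    intro t ht
    have h1 : t ∈ (range N).image (fun i => (K * i + (K - 1)) % N) := by
      rw [him]
      exact mem_range.2 ht
    obtain ⟨i, hi, h⟩ := mem_image.1 h1
    exact ⟨i, mem_range.1 hi, h⟩
  have hch : ∃ σ : ℕ → ℕ, ∀ t < N, σ t < N ∧ (K * σ t + (K - 1)) % N = t := by
    choose! σ h1 h2 using hex
    exact ⟨σ, fun t ht => ⟨h1 t ht, h2 t ht⟩⟩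
  obtain ⟨σ, hσ⟩ := hch
  have hσi : ∀ i < N, σ ((K * i + (K - 1)) % N) = i := by
    intro i hi
    have h1 := hσ _ (Nat.mod_lt (K * i + (K - 1)) hN)
    exact perm_inj hc h1.1 hi h1.2
  have hde : ∀ i < N, d i = (fun t => d (σ t)) ((K * i + (K - 1)) % N) := by
    intro i hi
    simp only
    rw [hσi i hi]
  have hbd : ∀ l, (∑ t ∈ range k, if t ≤ l ∧ l - t < K * N then a (l - t) * u t else 0) ≤ k * (c * b) := by
    intro l
    have h1 : (∑ t ∈ range k, if t ≤ l ∧ l - t < K * N then a (l - t) * u t else 0)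
        ≤ ∑ _t ∈ range k, c * b := by
      refine sum_le_sum ?_
      intro t ht
      split_ifs with h
      · exact Nat.mul_le_mul (ha _ h.2) (hu t (mem_range.1 ht)).1
      · exact Nat.zero_le _
    simpa using h1
  refine ⟨fun t => d (σ t), ?_, ?_⟩
  · rw [← lanes_ext W (fun t => d (σ t)) r N hr]
    · rw [← gather2 W K N hN hc d (fun t => d (σ t)) hde
        (fun t ht => by have := hdb _ (hσ t ht).1; omega)]
      change Nat.mod (Nat.land (Nat.mul A y) _) _ = _
      change ((A * y) &&& topMask W K N) % (2 ^ (W * N) - 1) = _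
      rw [eA, eu, lanes_mul_lanes', land_topMask _ _ _ _ _ hK (fun l _ => by
        have := hbd l
        omega)]
      congr 1
      refine lanes_congr _ ?_
      intro i hi
      congr 1
      refine sum_congr rfl ?_
      intro t ht
      have ht := mem_range.1 ht
      have := hlt i hi t ht
      rw [if_pos ⟨by omega, this⟩]
    · intro t ht1 ht2
      change d (σ t) = 0
      have h1 := hσ t ht2
      refine sum_eq_zero ?_
      intro s hs
      have h2 := (haM (σ t) h1.1 s (mem_range.1 hs)).2 (by rw [h1.2]; exact ht1)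
      rw [h2, zero_mul]
  · intro t ht
    have h1 := hσ t (by omega)
    refine ⟨hdb _ h1.1, ?_⟩
    change ((d (σ t) : ℕ) : ZMod 7) = _
    rw [hd]
    push_cast
    refine sum_congr rfl ?_
    intro s hs
    have hs := mem_range.1 hs
    have h2 := (haM (σ t) h1.1 s hs).1
    rw [h2, h1.2, if_pos ht, (hu s hs).2]

end Pool.Agent.Work.MP_bde882_al.Pk
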